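import Mathlib

/-!
# MP_2a6d80_co: an explicit bound for the illumination parameter in dimension three

We prove `ill(K) ≤ 102` for every `o`-symmetric convex body `K` of `ℝ³`, with 26 light sources.

Proof. Let `v_1, v_2, v_3` be points of `K` which span a parallelepiped of largest volume. In the
coordinates with respect to this basis `K` contains the octahedron `B = {Σ |x_i| ≤ 1}` and is
contained in the cube `{|x_i| ≤ 1}`. A point `p` illuminates a point `q` of `K` if
`‖(1 + m) q - p‖ < m` for some `m > 0`, because then `q + (q - p) / m` is in the interior of `K`.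
Let `b > 2 > 1 < a`. Take the 8 points `b (±1, ±1, ±1)`, the 12 points of the type `b (±1, ±1, 0)`
and the 6 points of the type `a (±1, 0, 0)`. Let `q` be a boundary point of `K`; by symmetry we
may assume `1 ≥ q_1 ≥ q_2 ≥ q_3 ≥ 0`. If `q_2 = 0` then `q = (1, 0, 0)` and `(a, 0, 0)`
illuminates `q`. If `q_2 > 0`, take `1 + m = b / q_2`. The norm of `(1 + m) q - p` is at most the
sum of the absolute values of its coordinates. For `p = b (1, 1, 0)` this sum is less than `m` if
`b (q_1 - q_2 + q_3) < b - q_2`, and for `p = b (1, 1, 1)` if `b (q_1 - q_3) < b - q_2`. One of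
the two is true, because the sum of the left sides is `b (2 q_1 - q_2) ≤ 2 b - b q_2 < 2 (b - q_2)`.
The sum of the norms of the sources is at most `8 * 3 b + 12 * 2 b + 6 a = 48 b + 6 a`, which is
arbitrarily close to `102`.
-/

namespace Pool.Agent.Results.MP_2a6d80_co.ExplicitBound

open Topology

abbrev E := EuclideanSpace ℝ (Fin 3)

/-- the determinant of three vectors -/
def D (u v w : E) : ℝ :=
  u 0 * (v 1 * w 2 - v 2 * w 1) - u 1 * (v 0 * w 2 - v 2 * w 0) + u 2 * (v 0 * w 1 - v 1 * w 0)

theorem cramer (u v w x : E) : D u v w • x = D x v w • u + D u x w • v + D u v x • w := by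
  ext i
  fin_cases i <;> simp [D] <;> ring

theorem zero_mem_interior {K : Set E} (hc : Convex ℝ K) (hi : (interior K).Nonempty)
    (hs : ∀ x ∈ K, -x ∈ K) : (0 : E) ∈ interior K := by
  obtain ⟨x, hx⟩ := hi
  have h := hc.combo_interior_self_mem_interior hx (hs x (interior_subset hx))
    (show (0 : ℝ) < 1 / 2 by norm_num) (show (0 : ℝ) ≤ 1 / 2 by norm_num) (by norm_num)
  simpa using h

/-- A basis of points of `K` such that `K` is in the unit cube of the coordinates. -/
theorem auerbach {K : Set E} (hc : Convex ℝ K) (hK : IsCompact K) (hi : (interior K).Nonempty)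
    (hs : ∀ x ∈ K, -x ∈ K) :
    ∃ (V : Fin 3 → E) (c : Fin 3 → E → ℝ), (∀ i, V i ∈ K) ∧ (∀ x, x = ∑ i, c i x • V i) ∧
      (∀ x ∈ K, ∀ i, |c i x| ≤ 1) ∧ ∀ (a : Fin 3 → ℝ) (i : Fin 3), c i (∑ j, a j • V j) = a i := by
  have h0 := zero_mem_interior hc hi hs
  have hne : K.Nonempty := ⟨0, interior_subset h0⟩
  obtain ⟨⟨u, v, w⟩, ⟨hu, hv, hw⟩, hmax⟩ := (hK.prod (hK.prod hK)).exists_isMaxOn
    (hne.prod (hne.prod hne)) (f := fun z : E × E × E => D z.1 z.2.1 z.2.2)
    (by unfold D; fun_prop)
  simp only at hu hv hw
  have hm : ∀ x ∈ K, ∀ y ∈ K, ∀ z ∈ K, D x y z ≤ D u v w := fun x hx y hy z hz =>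
    hmax (a := (x, y, z)) ⟨hx, hy, hz⟩
  have hpos : 0 < D u v w := by
    obtain ⟨r, hr, hrK⟩ := Metric.mem_nhds_iff.mp (mem_interior_iff_mem_nhds.mp h0)
    have hmem : ∀ i : Fin 3, (EuclideanSpace.single i (r / 2) : E) ∈ K := by
      intro i
      apply hrK
      rw [mem_ball_zero_iff, PiLp.norm_single, Real.norm_eq_abs, abs_of_pos (by linarith)]
      linarith
    refine lt_of_lt_of_le ?_ (hm _ (hmem 0) _ (hmem 1) _ (hmem 2))
    have : D (EuclideanSpace.single 0 (r / 2)) (EuclideanSpace.single 1 (r / 2))
        (EuclideanSpace.single 2 (r / 2)) = (r / 2) * ((r / 2) * (r / 2)) := by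
      simp [D]
    rw [this]
    positivity
  have hD := hpos.ne'
  refine ⟨![u, v, w], ![fun x => D x v w / D u v w, fun x => D u x w / D u v w,
    fun x => D u v x / D u v w], ?_, ?_, ?_, ?_⟩
  · intro i
    fin_cases i
    · exact hu
    · exact hv
    · exact hw
  · intro x
    rw [Fin.sum_univ_three]
    simp only [Matrix.cons_val_zero, Matrix.cons_val_one, Matrix.cons_val]
    have h := cramer u v w x
    have h2 : (D u v w)⁻¹ • (D u v w • x) = x := by rw [smul_smul, inv_mul_cancel₀ hD, one_smul]
    rw [h] at h2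
    simp only [smul_add, smul_smul] at h2
    simp only [div_eq_inv_mul]
    exact h2.symm
  · intro x hx i
    have hx' := hs x hx
    have n1 : D (-x) v w = - D x v w := by simp [D]; ring
    have n2 : D u (-x) w = - D u x w := by simp [D]; ring
    have n3 : D u v (-x) = - D u v x := by simp [D]; ring
    fin_cases i
    · show |D x v w / D u v w| ≤ 1
      rw [abs_div, abs_of_pos hpos, div_le_one hpos, abs_le]
      constructor
      · linarith [hm _ hx' _ hv _ hw]
      · exact hm _ hx _ hv _ hw
    · show |D u x w / D u v w| ≤ 1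
      rw [abs_div, abs_of_pos hpos, div_le_one hpos, abs_le]
      constructor
      · linarith [hm _ hu _ hx' _ hw]
      · exact hm _ hu _ hx _ hw
    · show |D u v x / D u v w| ≤ 1
      rw [abs_div, abs_of_pos hpos, div_le_one hpos, abs_le]
      constructor
      · linarith [hm _ hu _ hv _ hx']
      · exact hm _ hu _ hv _ hx
  · intro a i
    rw [Fin.sum_univ_three]
    simp only [Matrix.cons_val_zero, Matrix.cons_val_one, Matrix.cons_val]
    have e1 : D (a 0 • u + a 1 • v + a 2 • w) v w = a 0 * D u v w := by simp [D]; ring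
    have e2 : D u (a 0 • u + a 1 • v + a 2 • w) w = a 1 * D u v w := by simp [D]; ring
    have e3 : D u v (a 0 • u + a 1 • v + a 2 • w) = a 2 * D u v w := by simp [D]; ring
    fin_cases i
    · show D (a 0 • u + a 1 • v + a 2 • w) v w / D u v w = a 0
      rw [e1, mul_div_assoc, div_self hD, mul_one]
    · show D u (a 0 • u + a 1 • v + a 2 • w) w / D u v w = a 1
      rw [e2, mul_div_assoc, div_self hD, mul_one]
    · show D u v (a 0 • u + a 1 • v + a 2 • w) / D u v w = a 2
      rw [e3, mul_div_assoc, div_self hD, mul_one]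

/-- number of nonzero signs -/
def supp (s : Fin 3 → SignType) : ℕ := (Finset.univ.filter fun i => s i ≠ 0).card

/-- the factor of a source -/
def fac (a b : ℝ) (s : Fin 3 → SignType) : ℝ := if supp s = 1 then a else b

theorem result : ∀ K : Set (EuclideanSpace ℝ (Fin 3)),
    Convex ℝ K → IsCompact K → (interior K).Nonempty → (∀ x ∈ K, -x ∈ K) →
    ∀ ε : ℝ, 0 < ε →
      ∃ P : Finset (EuclideanSpace ℝ (Fin 3)), P.card ≤ 26 ∧
        (∀ p ∈ P, p ∉ K) ∧
        (∀ q ∈ frontier K, ∃ p ∈ P, ∃ t : ℝ, 0 < t ∧ q + t • (q - p) ∈ interior K) ∧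
        ∑ p ∈ P, gauge K p < 102 + ε := by
  classical
  intro K hc hK hi hs ε hε
  have h0 := zero_mem_interior hc hi hs
  have hn0 : K ∈ 𝓝 (0 : E) := mem_interior_iff_mem_nhds.mp h0
  obtain ⟨V, c, hV, hrep, hcube, hcoef⟩ := auerbach hc hK hi hs
  set δ : ℝ := min ε 1 / 60 with hδ
  have hδ0 : 0 < δ := by rw [hδ]; positivity
  have hδε : 54 * δ < ε := by
    have : min ε 1 ≤ ε := min_le_left _ _
    rw [hδ]; linarith
  set a : ℝ := 1 + δ with ha
  set b : ℝ := 2 + δ with hb
  have hgneg : ∀ x, gauge K (-x) = gauge K x := fun x => gauge_neg (fun x => hs x) x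
  have hsm : ∀ (r : ℝ) (x : E), gauge K (r • x) = |r| * gauge K x := by
    intro r x
    rcases le_total 0 r with h | h
    · rw [gauge_smul_of_nonneg h, abs_of_nonneg h, smul_eq_mul]
    · have : r • x = -((-r) • x) := by rw [neg_smul, neg_neg]
      rw [this, hgneg, gauge_smul_of_nonneg (by linarith), abs_of_nonpos h, smul_eq_mul]
  have hadd : ∀ x y, gauge K (x + y) ≤ gauge K x + gauge K y :=
    fun x y => gauge_add_le hc (absorbent_nhds_zero hn0) x y
  have hg1 : ∀ i, gauge K (V i) ≤ 1 := fun i => gauge_le_one_of_mem (hV i)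
  have hl1 : ∀ x : Fin 3 → ℝ, gauge K (∑ i, x i • V i) ≤ ∑ i, |x i| := by
    intro x
    rw [Fin.sum_univ_three, Fin.sum_univ_three]
    have h1 : ∀ i, gauge K (x i • V i) ≤ |x i| := fun i => by
      rw [hsm]
      exact mul_le_of_le_one_right (abs_nonneg _) (hg1 i)
    have := hadd (x 0 • V 0 + x 1 • V 1) (x 2 • V 2)
    have := hadd (x 0 • V 0) (x 1 • V 1)
    linarith [h1 0, h1 1, h1 2]
  -- the sources
  let src : (Fin 3 → SignType) → E := fun s => ∑ i, (fac a b s * (s i : ℝ)) • V i
  let S : Finset (Fin 3 → SignType) := Finset.univ.erase 0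
  have hScard : S.card = 26 := by decide
  -- the criterion
  have crit : ∀ (q : E) (p : E) (m : ℝ), 0 < m → gauge K ((1 + m) • q - p) < m →
      ∃ t : ℝ, 0 < t ∧ q + t • (q - p) ∈ interior K := by
    intro q p m hm h
    refine ⟨m⁻¹, inv_pos.mpr hm, ?_⟩
    rw [← gauge_lt_one_iff_mem_interior hc hn0]
    have : q + m⁻¹ • (q - p) = m⁻¹ • ((1 + m) • q - p) := by
      rw [smul_sub, smul_sub, smul_smul]
      have : m⁻¹ * (1 + m) = m⁻¹ + 1 := by field_simp
      rw [this, add_smul, one_smul]
      abel
    rw [this, hsm, abs_of_pos (inv_pos.mpr hm), inv_mul_lt_iff₀ hm, mul_one]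
    exact h
  refine ⟨S.image src, Finset.card_image_le.trans hScard.le, ?_, ?_, ?_⟩
  · -- outside
    intro p hp hpK
    obtain ⟨s, hsS, rfl⟩ := Finset.mem_image.mp hp
    have hs0 : s ≠ 0 := (Finset.mem_erase.mp hsS).1
    obtain ⟨i, hi⟩ := Function.ne_iff.mp hs0
    have h1 := hcube _ hpK i
    rw [show src s = ∑ i, (fac a b s * (s i : ℝ)) • V i from rfl,
      hcoef (fun i => fac a b s * (s i : ℝ)) i, abs_mul] at h1
    have h2 : |((s i : SignType) : ℝ)| = 1 := by
      rcases h : s i with _ | _ | _
      · exact absurd h hi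
      · simp
      · simp
    rw [h2, mul_one] at h1
    have h3 : 1 < fac a b s := by
      unfold fac; split_ifs <;> linarith
    rw [abs_of_pos (by linarith)] at h1
    linarith
  · -- illumination
    intro q hq
    have hqK : q ∈ K := hK.isClosed.frontier_subset hq
    have hqi : q ∉ interior K := hq.2
    set x : Fin 3 → ℝ := fun i => c i q with hx
    have hqx : q = ∑ i, x i • V i := hrep q
    have hx1 : ∀ i, |x i| ≤ 1 := hcube q hqK
    have hsum1 : 1 ≤ ∑ i, |x i| := by
      by_contra hlt
      apply hqi
      rw [← gauge_lt_one_iff_mem_interior hc hn0]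
      refine lt_of_le_of_lt ?_ (not_le.mp hlt)
      conv_lhs => rw [hqx]
      exact hl1 x
    -- sorting
    set e : Equiv.Perm (Fin 3) := Tuple.sort (fun i => |x i|) with he
    have hmono : Monotone ((fun i => |x i|) ∘ e) := Tuple.monotone_sort _
    have h01 : |x (e 0)| ≤ |x (e 1)| := hmono (by decide)
    have h12 : |x (e 1)| ≤ |x (e 2)| := hmono (by decide)
    have hse : ∀ g : Fin 3 → ℝ, ∑ i, g i = g (e 0) + g (e 1) + g (e 2) := by
      intro g
      rw [← Equiv.sum_comp e, Fin.sum_univ_three]
    have hne : ∀ i j : Fin 3, i ≠ j → e i ≠ e j := fun i j h h' => h (e.injective h')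
    -- general estimate
    have gen : ∀ (s : Fin 3 → SignType) (m : ℝ), s ≠ 0 → 0 < m →
        ∑ i, |(1 + m) * x i - fac a b s * (s i : ℝ)| < m →
        ∃ p ∈ S.image src, ∃ t : ℝ, 0 < t ∧ q + t • (q - p) ∈ interior K := by
      intro s m hs0 hm h
      refine ⟨src s, Finset.mem_image_of_mem _ (Finset.mem_erase.mpr ⟨hs0, Finset.mem_univ _⟩), ?_⟩
      refine crit q _ m hm (lt_of_le_of_lt ?_ h)
      have : (1 + m) • q - src s = ∑ i, ((1 + m) * x i - fac a b s * (s i : ℝ)) • V i := by
        conv_lhs => rw [hqx]
        rw [show src s = ∑ i, (fac a b s * (s i : ℝ)) • V i from rfl, Finset.smul_sum,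
          ← Finset.sum_sub_distrib]
        refine Finset.sum_congr rfl fun i _ => ?_
        rw [sub_smul, smul_smul]
      rw [this]
      exact hl1 _
    set q1 := |x (e 2)| with hq1
    set q2 := |x (e 1)| with hq2
    set q3 := |x (e 0)| with hq3
    have hq11 : q1 ≤ 1 := hx1 _
    have hq30 : 0 ≤ q3 := abs_nonneg _
    have hsgn : ∀ r : ℝ, ((SignType.sign r : SignType) : ℝ) * |r| = r := fun r => sign_mul_abs r
    have hsne : ∀ r : ℝ, r ≠ 0 → SignType.sign r ≠ 0 := fun r hr => by
      rw [Ne, sign_eq_zero_iff]; exact hr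
    have habs : ∀ (r y κ : ℝ), r ≠ 0 →
        |y * r - κ * ((SignType.sign r : SignType) : ℝ)| = |y * |r| - κ| := by
      intro r y κ hr
      rcases lt_or_gt_of_ne hr with h | h
      · rw [sign_neg h, abs_of_neg h]
        simp only [SignType.coe_neg_one]
        rw [show y * r - κ * -1 = -(y * -r - κ) by ring, abs_neg]
      · rw [sign_pos h, abs_of_pos h]
        simp
    by_cases hz : q2 = 0
    · -- q is a point of the type (±1, 0, 0)
      have hz3 : q3 = 0 := le_antisymm (hz ▸ h01) hq30
      have hq1' : q1 = 1 := by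
        rw [hse] at hsum1
        linarith
      have hx1z : x (e 1) = 0 := abs_eq_zero.mp hz
      have hx0z : x (e 0) = 0 := abs_eq_zero.mp hz3
      have hx2 : x (e 2) ≠ 0 := fun h => by
        rw [hq1, h, abs_zero] at hq1'
        exact zero_ne_one hq1'
      let s : Fin 3 → SignType := fun i => SignType.sign (x i)
      have hs2 : s (e 2) ≠ 0 := hsne _ hx2
      have hs1 : s (e 1) = 0 := by show SignType.sign (x (e 1)) = 0; rw [hx1z]; simp
      have hs0' : s (e 0) = 0 := by show SignType.sign (x (e 0)) = 0; rw [hx0z]; simp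
      have hsupp : supp s = 1 := by
        unfold supp
        rw [Finset.card_eq_one]
        refine ⟨e 2, ?_⟩
        ext i
        simp only [Finset.mem_filter, Finset.mem_univ, true_and, Finset.mem_singleton]
        constructor
        · intro h
          obtain ⟨j, rfl⟩ := e.surjective i
          fin_cases j
          · exact absurd hs0' h
          · exact absurd hs1 h
          · rfl
        · rintro rfl
          exact hs2
      have hfac : fac a b s = a := by unfold fac; rw [if_pos hsupp]
      refine gen s δ (fun h => hs2 (by rw [h]; rfl)) hδ0 ?_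
      rw [hfac, hse]
      simp only [hs1, hs0', hx1z, hx0z]
      have : |(1 + δ) * x (e 2) - a * ((s (e 2) : SignType) : ℝ)| = 0 := by
        show |(1 + δ) * x (e 2) - a * ((SignType.sign (x (e 2)) : SignType) : ℝ)| = 0
        rw [habs _ _ _ hx2, ← hq1, hq1', ha, mul_one, sub_self, abs_zero]
      rw [this]
      simpa using hδ0
    · have hq20 : 0 < q2 := lt_of_le_of_ne (abs_nonneg _) (Ne.symm hz)
      have hx1 : x (e 1) ≠ 0 := fun h => hz (by rw [hq2, h, abs_zero])
      have hx2 : x (e 2) ≠ 0 := fun h => by
        rw [hq1, h, abs_zero] at h12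
        linarith
      have hq21 : q2 ≤ 1 := h12.trans hq11
      set m : ℝ := b / q2 - 1 with hm
      have hb1 : 1 < b / q2 := by
        rw [lt_div_iff₀ hq20]; linarith
      have hm0 : 0 < m := by rw [hm]; linarith
      have h1m : 1 + m = b / q2 := by rw [hm]; ring
      have t2 : |b / q2 * q1 - b| = b * (q1 - q2) / q2 := by
        rw [abs_of_nonneg]
        · field_simp
        · have : b / q2 * q1 - b = b * (q1 - q2) / q2 := by field_simp
          rw [this]
          have : 0 ≤ q1 - q2 := by linarith
          positivity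
      have t1 : |b / q2 * q2 - b| = 0 := by
        rw [div_mul_cancel₀ _ hz, sub_self, abs_zero]
      by_cases hedge : b * (q1 - q2 + q3) < b - q2
      · let s : Fin 3 → SignType := fun i => if i = e 0 then 0 else SignType.sign (x i)
        have hs0' : s (e 0) = 0 := if_pos rfl
        have hs1 : s (e 1) = SignType.sign (x (e 1)) := if_neg (hne 1 0 (by decide))
        have hs2 : s (e 2) = SignType.sign (x (e 2)) := if_neg (hne 2 0 (by decide))
        have hfac : fac a b s = b := by
          unfold fac
          rw [if_neg]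
          unfold supp
          intro h
          have : ({e 1, e 2} : Finset (Fin 3)) ⊆ Finset.univ.filter fun i => s i ≠ 0 := by
            intro i hi
            rw [Finset.mem_filter]
            refine ⟨Finset.mem_univ _, ?_⟩
            rcases Finset.mem_insert.mp hi with rfl | hi
            · rw [hs1]; exact hsne _ hx1
            · rw [Finset.mem_singleton.mp hi, hs2]; exact hsne _ hx2
          have := Finset.card_le_card this
          rw [h, Finset.card_pair (hne 1 2 (by decide))] at this
          omega
        refine gen s m (fun h => hsne _ hx2 (by rw [← hs2, h]; rfl)) hm0 ?_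
        rw [hfac, hse, hs0', hs1, hs2, habs _ _ _ hx1, habs _ _ _ hx2, ← hq1, ← hq2, h1m, t1, t2]
        have t0 : |b / q2 * x (e 0) - b * ((0 : SignType) : ℝ)| = b * q3 / q2 := by
          simp only [SignType.coe_zero, mul_zero, sub_zero]
          rw [abs_mul, ← hq3, abs_of_pos (by linarith)]
          ring
        rw [t0, hm]
        have : b * q3 / q2 + 0 + b * (q1 - q2) / q2 = b * (q1 - q2 + q3) / q2 := by ring
        rw [this, div_lt_iff₀ hq20]
        have : (b / q2 - 1) * q2 = b - q2 := by field_simp
        rw [this]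
        exact hedge
      · have hcor : b * (q1 - q3) < b - q2 := by
          push Not at hedge
          nlinarith
        have hx0 : x (e 0) ≠ 0 := by
          intro h
          have : q3 = 0 := by rw [hq3, h, abs_zero]
          apply hedge
          rw [this]
          nlinarith
        let s : Fin 3 → SignType := fun i => SignType.sign (x i)
        have hfac : fac a b s = b := by
          unfold fac
          rw [if_neg]
          unfold supp
          intro h
          have : ({e 1, e 2} : Finset (Fin 3)) ⊆ Finset.univ.filter fun i => s i ≠ 0 := by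
            intro i hi
            rw [Finset.mem_filter]
            refine ⟨Finset.mem_univ _, ?_⟩
            rcases Finset.mem_insert.mp hi with rfl | hi
            · exact hsne _ hx1
            · rw [Finset.mem_singleton.mp hi]; exact hsne _ hx2
          have := Finset.card_le_card this
          rw [h, Finset.card_pair (hne 1 2 (by decide))] at this
          omega
        refine gen s m (fun h => hsne _ hx2 (by
          show s (e 2) = 0
          rw [h]; rfl)) hm0 ?_
        rw [hfac, hse]
        show |(1 + m) * x (e 0) - b * ((SignType.sign (x (e 0)) : SignType) : ℝ)| +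
          |(1 + m) * x (e 1) - b * ((SignType.sign (x (e 1)) : SignType) : ℝ)| +
          |(1 + m) * x (e 2) - b * ((SignType.sign (x (e 2)) : SignType) : ℝ)| < m
        rw [habs _ _ _ hx0, habs _ _ _ hx1, habs _ _ _ hx2, ← hq1, ← hq2, ← hq3, h1m, t1, t2]
        have t0 : |b / q2 * q3 - b| = b * (q2 - q3) / q2 := by
          rw [abs_of_nonpos]
          · field_simp
            ring
          · have : b / q2 * q3 - b = -(b * (q2 - q3) / q2) := by field_simp; ring
            rw [this, neg_nonpos]
            have : 0 ≤ q2 - q3 := by linarith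
            positivity
        rw [t0, hm]
        have : b * (q2 - q3) / q2 + 0 + b * (q1 - q2) / q2 = b * (q1 - q3) / q2 := by ring
        rw [this, div_lt_iff₀ hq20]
        have : (b / q2 - 1) * q2 = b - q2 := by field_simp
        rw [this]
        exact hcor
  · -- the sum
    have hle : ∑ p ∈ S.image src, gauge K p ≤ ∑ s ∈ S, gauge K (src s) :=
      Finset.sum_image_le_of_nonneg (fun s _ => gauge_nonneg _)
    have hone : ∀ s : Fin 3 → SignType, gauge K (src s) ≤ fac a b s * supp s := by
      intro s
      have hf : 0 ≤ fac a b s := by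
        unfold fac; split_ifs <;> linarith
      refine (hl1 _).trans ?_
      have : ∀ i, |fac a b s * (s i : ℝ)| = fac a b s * (if s i ≠ 0 then 1 else 0 : ℝ) := by
        intro i
        rw [abs_mul, abs_of_nonneg hf]
        congr 1
        rcases h : s i with _ | _ | _ <;> simp
      simp only [this]
      rw [← Finset.mul_sum, Finset.sum_boole]
      rfl
    have htot : ∑ s ∈ S, fac a b s * (supp s : ℝ) = 6 * a + 48 * b := by
      have h1 : ∀ s ∈ S, fac a b s * (supp s : ℝ) =
          a * ((if supp s = 1 then 1 else 0 : ℕ) : ℝ) +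
          b * ((if supp s = 1 then 0 else supp s : ℕ) : ℝ) := by
        intro s _
        unfold fac
        split_ifs with h
        · rw [h]; simp
        · simp
      rw [Finset.sum_congr rfl h1, Finset.sum_add_distrib, ← Finset.mul_sum, ← Finset.mul_sum,
        ← Nat.cast_sum, ← Nat.cast_sum]
      have c1 : ∑ s ∈ S, (if supp s = 1 then 1 else 0 : ℕ) = 6 := by decide
      have c2 : ∑ s ∈ S, (if supp s = 1 then 0 else supp s : ℕ) = 48 := by decide
      rw [c1, c2]
      push_cast
      ring
    calc ∑ p ∈ S.image src, gauge K p ≤ ∑ s ∈ S, gauge K (src s) := hle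
      _ ≤ ∑ s ∈ S, fac a b s * (supp s : ℝ) := Finset.sum_le_sum fun s _ => hone s
      _ = 6 * a + 48 * b := htot
      _ < 102 + ε := by rw [ha, hb]; linarith

end Pool.Agent.Results.MP_2a6d80_co.ExplicitBound
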